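import Pool.Agent.Y97.AB.Tr
import Pool.Agent.Y97.AB.PDefs

/-!
# The standard conjecture of Hodge type for all powers and polarizations from one power

Let `X` be an abelian variety over a finite field with `p` elements (`p` any prime power), with the
polarization `D` and the Frobenius endomorphism `φ`, which acts diagonally on the first cohomology,
with the eigenvalues `π 0, …, π (N - 1)`. The relations `π (x 0) ⋯ π (x (2 j - 1)) = p ^ j` between
the eigenvalues generate a group of exponent vectors, and there is a number `m` such that this group
is generated by the relations which use every member of the family `π` at most `m + 1` times, that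
is to say, by the relations which belong to the cohomology of `X ^ (m + 1)`.

For every such `m`, the Tate conjecture and the standard conjecture of Hodge type for
`X ^ (m + 1)` with the product polarization imply the standard conjecture of Hodge type for **all**
the powers of `X`, and more generally for all abelian varieties `Z` and all polarizations `E` of `Z`
which are positive combinations of pull-backs of `D` along morphisms `Z ⟶ X`. (These are all
polarizations of all abelian varieties which are isogenous to products of simple factors of `X`.)
The theorem of Tate on divisors on `X × X` is a hypothesis, and for `m = 0` also the Hodge index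
theorem for `X × X`.
-/

open CategoryTheory AlgebraicGeometry

universe u v

namespace Pool.Agent.Results.MP_c0b458_ag.AllPowersFromOne

open Pool.Agent.H914 Pool.Agent.H281R3.HT Pool.Agent.W539.Ker Pool.Agent.Y97 Pool.Agent.Y97.AB

/-- **The Tate conjecture and the standard conjecture of Hodge type for one power of `X` imply the
standard conjecture of Hodge type for all abelian varieties made from `X`, with all polarizations.** -/
theorem result {k : Type u} [Field k] {𝒱 : VarClass k} {ops : CycleOps 𝒱}
    (W : WeilCohomology.{u, v} ops) (P : Polarized 𝒱) (hP : Good W P) (hX : IsExt W P.X)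
    (φ : P.X ⟶ P.X) (p : ℕ) (hp : p ≠ 0) (N : ℕ) (π : Fin N → W.K) (hπ : Diag W P.X φ π)
    (hF : ∀ s, FrobLike W (power ops P s).X (frobP ops P φ s) p)
    (hT1 : TateIn W (power ops P 1).X (frobP ops P φ 1) p 1) :
    (∃ m, RelGen p π m) ∧
    ∀ m, RelGen p π m → (∀ j, TateIn W (power ops P m).X (frobP ops P φ m) p j) →
      HodgeNum W (power ops P m).X (power ops P m).D →
      (m = 0 → HodgeIndex W (power ops P 1).X (power ops P 1).D) →
      (∀ s, HodgeNum W (power ops P s).X (power ops P s).D) ∧
      ∀ Q : Polarized 𝒱, Good W Q → IsExt W Q.X → PosPull W Q P →
        ∀ s, HodgeNum W (power ops Q s).X (power ops Q s).D :=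
  ⟨exists_relGen p π, fun _ hR hT hH hI =>
    ⟨fun s => all_hodge W P hP hX φ hp hπ hF hT1 hR hT hH hI s,
    fun Q hQ hZ ⟨_, _, _, ha0, ha⟩ s =>
      all_hodge_Q W P hP hX φ hp hπ hF hT1 hR hT hH hI Q hQ hZ ha0 ha s⟩⟩

end Pool.Agent.Results.MP_c0b458_ag.AllPowersFromOne
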