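import Pool.Agent.Y128.CV.Pos
import Pool.Agent.Y574.CY.Eig
import Pool.Agent.Y907.CY.REF

/-!
# The numerical Hodge standard conjecture for products of Jacobians of cyclic coverings

Let `q` be a prime number and `X_c`, `c` in a finite set, curves `y ^ n = ∏ (x - a_t) ^ (m_t)` over a
finitely generated field `F` of characteristic `q`, of any degrees `n = n_c ≥ 3` prime to `q`, with any
number `r = r_c` of branch points except four, and any exponents `m_t`, nonzero modulo `n`, with sum
zero. Let `V_c` be the rational Tate module of the primitive part `A_c` of the Jacobian of `X_c` (where
the automorphism `σ` of order `n` acts with primitive roots of unity as eigenvalues). The
hypotheses `CyclicCoveringsAt q f` are explained in MP_af4e75_ag.CyclicCoverings: if `r ≥ 5` then the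
endomorphism algebra of `A_c` over the closure is generated by `σ`, and there is one place of `F`
where exactly two of the branch points of `X_c` meet, with the sum of their two exponents prime to
`n`, and the other curves have good reduction; for `r = 3` no eigenspace is supersingular; the rest
are standard facts; `f` is the order of `q` modulo the degrees.

Theorem (`HodgeType`): the standard conjecture of Hodge type holds for all products of powers of the
`A_c`, in all degrees, if the form is positive on a group `known` of classes of algebraic cycles
whose combinations contain the classes of degree two, the products of determinants on eigenspaces
which satisfy the condition of Shioda and Katsura for Tate classes on Fermat varieties in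
characteristic `q`, and their products. Here the conjecture is stated in its tensor form: the form
induced by the polarization on the classes of algebraic cycles in the tensor powers of the first
cohomology is positive definite; the primitive classes of the powers of `∏ A_c` with the signs of the
conjecture are included (Lefschetz decomposition), and the conjecture for all powers does not
depend on the polarization (Milne).

By the theorem it is enough to know the conjecture for classes which come from Fermat varieties, and
it holds without further hypotheses for all products of powers of these Jacobians in two cases:

* all degrees are equal to one prime number `p` and `q` is congruent to one modulo `p`. Then the condition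
  (`f = 1`) is that of Shioda for Hodge classes, so the residues are paired, and the products of
  determinants are the reductions of Hodge classes on a lift of the curves to characteristic zero which
  come from the Fermat varieties of degree `p`; these are algebraic by the theorem of Ran and Shioda.
  The classes of degree two lift (for `r ≥ 5` they are combinations of the `σ ^ i`, for `r = 3` the Fermat
  Jacobian in characteristic zero is the canonical lift). `known m` are the classes which are
  reductions of algebraic classes on the lift, and the form is positive on them by the
  Hodge-Riemann relations;
* all `r ≥ 5` and all degrees divide some `q ^ ν + 1`. Then the products of determinants come by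
  correspondences from Fermat varieties which are dominated by products of supersingular Fermat
  curves (Shioda and Katsura), where all Tate classes are generated by divisors and the form is
  positive (Milne). The forms induced on the motives of these determinants (they have complex
  multiplication and lift to characteristic zero with the curves and the correspondences) by the
  polarizations of the `A_c` and of the Fermat varieties are both polarizations of the same Hodge
  structures in characteristic zero, so they differ by a positive endomorphism `b* b`.

In both cases there are exotic classes of arbitrarily large degree, all dimensions
`(r - 2) φ(n) / 2` occur and the special members of the families are included.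

The input about cycles, `CycleClasses`, is as in MP_af4e75_ag.CyclicCoverings (the Galois group acts on the
classes over the closure through finite quotients, the pairing has integral values on them and is
nondegenerate on Tate classes).

Proof: by `Pool.Agent.Y128.CV.main_at` (complex reflections and one Frobenius element give the special linear
Lie algebras of all eigenspaces in the annihilator Lie algebra of a Tate class; valuations of
Frobenius determinants) all Tate classes are combinations of known classes over the closure of
`ℚ_ℓ`. The intersection numbers show that a class of an algebraic cycle is then a RATIONAL combination
of known classes, so a multiple is known.

The parts `t_EIG` and `t_REF` are by helper574 and helper907.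
-/

namespace Pool.Agent.Results.MP_c0b458_ag.CyclicCoverings

open Pool.Agent.Y128.CV

/-- The Hodge standard conjecture for products of Jacobians of cyclic coverings (`k` is the field of the
`ℓ`-adic numbers, `Γ` the Galois group, `z` any primitive root of unity of order `level C`). -/
theorem result {k Γ ι : Type} [Field k] [CharZero k] [Group Γ] [Fintype ι] [DecidableEq ι]
    {V : ι → Type} [∀ c, AddCommGroup (V c)] [∀ c, Module k (V c)]
    [∀ c, FiniteDimensional k (V c)] (C : ι → Covering) (ρ : ∀ c, Representation k Γ (V c))
    (χ : Γ →* k) (ω : ∀ c, V c →ₗ[k] V c →ₗ[k] k) (σ : ∀ c, Module.End k (V c)) (q f : ℕ)
    (hf : 0 < f) (h : CyclicCoveringsAt q f C ρ χ ω σ) (z : AlgebraicClosure k)
    (hz : IsPrimitiveRoot z (level C)) (A : CycleClasses (rep ρ) (chi χ))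
    (known : ∀ m, AddSubgroup (Forms (AlgebraicClosure k) (Total k V) m))
    (hP : PositiveClasses A known) (hA : FermatClassesAreKnown q f C ρ χ σ z known) :
    HodgeType A :=
  main_pos Pool.Agent.Y574.CY.t_EIG (Pool.Agent.Y907.CY.t_REF Pool.Agent.Y574.CY.t_EIG) hf h hz A
    hP hA

end Pool.Agent.Results.MP_c0b458_ag.CyclicCoverings
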