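import Pool.Agent.Y97.AB.Thm

/-!
# The numerical Hodge standard conjecture on the powers of an abelian variety

Let `X` be an abelian variety (a variety whose cohomology is the exterior algebra on the first
cohomology) with a polarization `D`. If the standard conjecture of Hodge type holds for
`X ^ (m + 1)`, it holds on every power of `X` for all the classes which are generated by the
classes of the cycles on `X ^ (m + 1)` and of the cycles of small codimension or dimension on all
powers, by means of sums, products, pull-backs and push-forwards along all morphisms between powers.
For `m = 0` the Hodge index theorem for the divisors on `X × X` is assumed.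
-/

open CategoryTheory AlgebraicGeometry

universe u v

namespace Pool.Agent.Results.MP_c0b458_ag.GeneratedOnPowers

open Pool.Agent.H914 Pool.Agent.H281R3.HT Pool.Agent.W539.Ker Pool.Agent.Y97 Pool.Agent.Y97.AB

/-- **The standard conjecture of Hodge type for one power of an abelian variety implies the
positivity on all its powers for all generated classes.** -/
theorem result {k : Type u} [Field k] {𝒱 : VarClass k} {ops : CycleOps 𝒱}
    (W : WeilCohomology.{u, v} ops) (P : Polarized 𝒱) (hP : Good W P) (hX : IsExt W P.X)
    (m : ℕ) (hH : HodgeNum W (power ops P m).X (power ops P m).D)
    (hI : m = 0 → HodgeIndex W (power ops P 1).X (power ops P 1).D) (s n : ℕ)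
    (hn : 2 * n ≤ (power ops P s).X.dim) (z : (power ops P s).X.Cycles)
    (hz : Primitive W (power ops P s).X (power ops P s).D n z)
    (hgen : GenA W P m s (W.cl (power ops P s).X z))
    (hne : ∃ w, (power ops P s).X.IsCyc ((power ops P s).X.dim - n) w ∧
      (power ops P s).X.V.degCycle (ops.mul z w) ≠ 0) :
    0 < pairing ops (power ops P s).X (power ops P s).D n z z :=
  genA_hodge W P hP hX hH hI hn hz hgen hne

end Pool.Agent.Results.MP_c0b458_ag.GeneratedOnPowers
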