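import Pool.Agent.Y218.HN

/-!
# The numerical Hodge standard conjecture for ordinary abelian varieties in independent blocks

Let `A₀` be an ordinary abelian variety over the field with `q = p ^ a` elements, isogenous (after a
finite extension of the base field) to a product of any number of absolutely simple abelian varieties
`A₀ i` with complex multiplication by CM fields `E i` containing their Frobenius endomorphisms `π i`.
Its canonical lift is isogenous to the product `X` of the abelian varieties `A i` with complex
multiplication by `E i` and the CM types `Φ i` given by the embeddings `φ` for which `φ (π i)` has
slope one.
The factors are divided into blocks (the block of the factor `A i` is `b i`), such that for each block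
there is an automorphism of the field of complex numbers that acts as the complex conjugation on all
embeddings of the CM fields in this block and trivially on all embeddings of the CM fields in the
other blocks (the intersection of the Galois closure of the fields of the block with the compositum of
the Galois closures of the other fields is totally real; for one block this is no condition). Each
block is of one of the following kinds:

* its factors have dimension at most three, and any two of them whose CM fields have the same Galois
  closure over `ℚ` have isomorphic CM types, unless these CM fields are Galois over `ℚ`;
* its factors are factors (up to isogeny) of one abelian variety of CM type of dimension at most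
  five, each with any multiplicity;
* its factors have the same CM type, with a CM field of degree at most fourteen;
* its factors are factors (up to isogeny) of one nondegenerate abelian variety of CM type, of
  arbitrary dimension, each with any multiplicity.

For example `A₀` may be any power of any ordinary abelian variety of dimension at most five, any
power of a simple ordinary abelian variety of dimension at most seven, or a product of such powers
for which the Galois closures of the CM fields are linearly disjoint.

Let `A n ⊆ H^{2n}(A₀, K)`, `K = ℚ_ℓ`, be the space of the classes of the algebraic cycles of
codimension `n` on `A₀` over an algebraic closure of the base field, with rational coefficients. Of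
these spaces the theorem uses only the following properties (`IsCycleSpaces`): the classes are Tate
classes over a finite extension of the base field; the spaces contain the reductions of all classes on
`X` in the ring generated by the classes of divisors on `X` and by the pull-backs, along homomorphisms
`X → Y`, of the Weil classes of imaginary quadratic fields on abelian fourfolds and sixfolds `Y` of CM
type and of split Weil type (these classes are algebraic by theorems of Lefschetz and Markman);
intersection numbers are rational.

Let `E` be a polarization of `X` (each polarization of `A₀` lifts to the canonical lift), with class
`L`. Then the numerical Hodge standard conjecture holds for `A₀` and `L`, in all degrees: if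
`dim A₀ = 2 n + m`, and if `z ∈ A n` is primitive modulo numerical equivalence
(`z · L ^ {m + 1} · w = 0` for all `w ∈ A (n - 1)`) and not numerically trivial (`z · w ≠ 0` for some
`w ∈ A (n + m)`), then `(-1) ^ n z · z · L ^ m = c L ^ {2 n + m}` with a positive rational number `c`,
so `(-1) ^ n z · z · L ^ m > 0`.
-/

namespace Pool.Agent.Results.MP_c0b458_ag.OrdinaryIndependentBlocks

open Pool.Agent.W547.KB Pool.Agent.W547.LD Pool.Agent.W530.NF Pool.Agent.W547.LN
open Pool.Agent.W547.UB Pool.Agent.Y218.HN

/-- `X` is the canonical lift of an ordinary abelian variety `A₀` over the field with `q = p ^ a`
elements, in independent blocks, `V` is the rational Tate module of `A₀` and `F` the Frobenius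
endomorphism, `A n` are the spaces of the classes of algebraic cycles on `A₀`: the numerical Hodge
standard conjecture holds for every polarization `E`. -/
theorem result (p : ℕ) [Fact p.Prime] (a : ℕ) (ha : 0 < a) (ν : PadicAlgCl p ≃+* ℂ)
    (X : CMAV) {J : Type} (b : X.I → J) (hX : IndependentBlocks X b)
    (π : X.H1) (hπ : IsCanonicalLift p a ν X π)
    {K V : Type} [Field K] [CharZero K] [AddCommGroup V] [Module K V]
    (C : Comparison X K V) (F : V →ₗ[K] V) (hF : IsFrobeniusMap C π F)
    (A : ∀ n : ℕ, Submodule ℚ (V [⋀^Fin n × Fin 2]→ₗ[K] K)) (hA : IsCycleSpaces C F (p ^ a) A)
    {E : X.H1 → X.H1 → ℚ} (hE : IsPolarization X E) : NumericalHodgeStandard C A E :=
  numericalHodgeStandard_blocks p a ha ν X b hX π hπ C F hF A hA hE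

end Pool.Agent.Results.MP_c0b458_ag.OrdinaryIndependentBlocks
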